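import Pool.Agent.helper82.UNH.PINb
import Pool.Agent.helper94.UNH.PBD
import Pool.Agent.helper57.UNH.PBX
import Pool.Agent.helper3.UNH.PCH
import Pool.Agent.helper39.UNH.PDB
import Pool.Agent.helper44.UNH.PDE
import Pool.Agent.helper88.UNH.PFC
import Pool.Agent.helper58.UNH.PFT
import Pool.Agent.helper84.UNH.PGC
import Pool.Agent.helper76.UNH.PGJ
import Pool.Agent.helper10.UNH.PGR
import Pool.Agent.helper58.UNH.PGZ
import Pool.Agent.helper59.UNH.PIV
import Pool.Agent.helper51.UNH.PLB
import Pool.Agent.helper94.UNH.PMX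
import Pool.Agent.helper36.UNH.PNF
import Pool.Agent.helper67.UNH.POI
import Pool.Agent.helper39.UNH.PPC
import Pool.Agent.helper87.UNH.PTQ
import Pool.Agent.helper36.UNH.PTR
import Pool.Agent.helper76.UNH.PVO
import Pool.Agent.helper23.UNH.PZS

/-!
# Block P of the functional equation (project UN, MP_cf4097_nt)

`PNF_all : PNF_stmt`: the Poisson formula for the theta functions with harmonic polynomials attached to
a nonzero ideal of a number field and a residue class, no hypotheses.
-/

namespace Pool.Agent.UN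

theorem PNF_all : PNF_stmt :=
  PNF (POI PTQ PPC (PFC PBX PINb)) (PDE PZS PLB PBD)
    (PFT PCH (PIV PMX PGR (PGC PGZ) (PGJ (PGC PGZ))) PTR PVO) PDB

end Pool.Agent.UN
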