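import Mathlib
import Pool.Agent.helper13.UN.Defs
import Pool.Agent.helper82.Weil.M

/-!
# Project UN (MP_cf4097_nt), block M: `AST_stmt`, the moment bound for squarefree levels

Rows are the definitions `XXX_stmt : Prop`; prove `theorem XXX (h1 : AAA_stmt) ... : XXX_stmt` in
`Pool/Agent/<you>/UN/XXX.lean`, `import Pool.Agent.helper82.UN.SpecM`, namespace `Pool.Agent.UN`;
auxiliary lemmas are named `XXX_...`. A complete proof of every row is in its docstring. All rows are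
independent.
-/

set_option autoImplicit false

open Finset

namespace Pool.Agent.UN

/-- the tuple `z` is degenerate modulo `p`: every coordinate is congruent to another one -/
def Dg {k : ℕ} (p : ℕ) (z : Fin k → ℕ) : Prop := ∀ a, ∃ b, b ≠ a ∧ z a ≡ z b [MOD p]

/-- the box `{0, ..., H - 1}^k` -/
def bx (k H : ℕ) : Finset (Fin k → ℕ) := Fintype.piFinset fun _ => range H

open Classical in
/-- the residue characteristics of the fields `F i` -/
noncomputable def PP {ι : Type} [Fintype ι] (F : ι → Type) [∀ i, Field (F i)] : Finset ℕ :=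
  univ.image fun i => ringChar (F i)

open Classical in
/-- the weight `∏ √(card F_i)` over the `i` with residue characteristic `p` -/
noncomputable def wt {ι : Type} [Fintype ι] (F : ι → Type) [∀ i, Field (F i)]
    [∀ i, Fintype (F i)] (p : ℕ) : ℝ :=
  ∏ i ∈ univ.filter (fun i => ((p : ℕ) : F i) = 0), Real.sqrt (Fintype.card (F i))

open Classical in
/-- Row MEX (SHORT-MEDIUM; expansion of the moment).
Proof. `‖S‖ ^ (2 * r) = ‖S ^ r * conj S ^ r‖` and as a complex number it is `S ^ r * (conj S) ^ r`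
(`Complex.mul_conj`, `RCLike.mul_conj`). Write `S = ∑ h ∈ range H, a u h`, `a u h = (∏ i, ψ i (u i + h)) * c h`.
`S ^ r * conj S ^ r = ∏ a : Fin (r + r), (∑ h ∈ range H, (if a is in the first half then a u h else conj))`
(`Fin.prod_univ_add`, `Finset.prod_const`) `= ∑ z ∈ bx (r + r) H, ∏ a, ..` (`Finset.prod_univ_sum`). So the sum over
`u` is the sum over `z` of `(∏ c-values) * ∑ u, ∏ i, (∏ a : Fin r, ψ i (u i + z a)) * conj (..)`
`= (∏ c-values) * ∏ i, ZZ (ψ i) ..` (`Finset.prod_univ_sum` / `Fintype.piFinset_univ` for the sum over `u`,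
`add_comm`). Take norms; the product of the `c`-values has norm at most `1`. The left side is real and
nonnegative, so it is the norm of the complex number. -/
def MEX_stmt : Prop := ∀ {ι : Type} [Fintype ι] (F : ι → Type) [∀ i, Field (F i)]
    [∀ i, Fintype (F i)] (ψ : ∀ i, MulChar (F i) ℂ) (r H : ℕ) (c : ℕ → ℂ), (∀ h, ‖c h‖ ≤ 1) →
    ∑ u : (∀ i, F i), ‖∑ h ∈ range H, (∏ i, ψ i (u i + (h : F i))) * c h‖ ^ (2 * r) ≤
      ∑ z ∈ bx (r + r) H, ∏ i, ‖Pool.Agent.helper82.Weil.ZZ (ψ i)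
        (fun a : Fin r => ((z (Fin.castAdd r a) : ℕ) : F i))
        (fun a : Fin r => ((z (Fin.natAdd r a) : ℕ) : F i))‖

open Classical in
/-- Row ZZP (SHORT-MEDIUM; the complete sums for one tuple).
Proof. For every `i` let `p = ringChar (F i)` (prime; `(m : F i) = (m' : F i)` iff `m ≡ m' [MOD p]`:
`CharP.cast_eq_iff_mod_eq`/`CharP.natCast_eq_natCast`). If `Dg p z` then `‖ZZ‖ ≤ card F_i = √card * √card`
(`ZZ_trivial`, Pool/Agent/helper82/Weil/M.lean) `≤ (2 r) √card * √card`; if not, some coordinate `a` is not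
congruent to any other, so `Nondeg` holds (via `finSumFinEquiv : Fin r ⊕ Fin r ≃ Fin (r + r)`) and
`‖ZZ‖ ≤ 2 r √card` (`ZZ_bound`). So `‖ZZ_i‖ ≤ (2 r) √card * (if Dg p_i z then √card else 1)`; product over `i`
(`Finset.prod_le_prod`), `∏ √card = √∏ card` (`Real.sqrt` of a product), and the product of the last
factors is the product over the `p ∈ PP F` with `Dg p z` of `wt F p` (`Finset.prod_fiberwise_of_maps_to`; for
`p ∈ PP F`, a prime, `(p : F i) = 0` iff `ringChar (F i) = p`). -/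
def ZZP_stmt : Prop := ∀ {ι : Type} [Fintype ι] (F : ι → Type) [∀ i, Field (F i)]
    [∀ i, Fintype (F i)] (ψ : ∀ i, MulChar (F i) ℂ), (∀ i, ψ i ≠ 1) → ∀ r : ℕ, 1 ≤ r →
    ∀ z : Fin (r + r) → ℕ, ∏ i, ‖Pool.Agent.helper82.Weil.ZZ (ψ i)
        (fun a : Fin r => ((z (Fin.castAdd r a) : ℕ) : F i))
        (fun a : Fin r => ((z (Fin.natAdd r a) : ℕ) : F i))‖ ≤
      (2 * r : ℝ) ^ Fintype.card ι * Real.sqrt (∏ i, (Fintype.card (F i) : ℝ)) *
        ∏ p ∈ (PP F).filter (fun p => Dg p z), wt F p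

/-- Row DGF (SHORT-MEDIUM; the pattern of a degenerate tuple).
Proof. `f a` = the least `b` with `z b ≡ z a [MOD p]` (`Finset.min'` of a filter, or `Fin.find`): `f a ≤ a`,
`f (f a) = f a`. Let `X = {a | f a = a}`, `N = {a | f a < a}`, `#X + #N = k`. For `a ∈ X` there is `b ≠ a` with
`z b ≡ z a`; then `f b = f a = a` (same class), so `b ∈ N` (`f b = a ≠ b`). The map `X → N`, `a ↦ b` is injective
(`f b = a`), so `#X ≤ #N` and `k ≤ 2 #N`. -/
def DGF_stmt : Prop := ∀ (k p : ℕ) (z : Fin k → ℕ), Dg p z →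
    ∃ f : Fin k → Fin k, (∀ a, f a ≤ a) ∧ (∀ a, z a ≡ z (f a) [MOD p]) ∧
      k ≤ 2 * (univ.filter fun a => f a < a).card

/-- Row DGN (MEDIUM; number of tuples with a given pattern).
Proof. Induction on `k`. For `k = k' + 1` split `z = Fin.snoc z' x` (`Fin.snocEquiv`, or map `z ↦ (Fin.init z, z (Fin.last k'))`,
injective): `z'` satisfies the conditions for the `a < k'` (for these `f p a ≤ a` is again `< k'`), so there are at
most `∏ a : Fin k', (H / d_a + 1)` of them (`Finset.card_le_mul_card_image` or a bound for the fibres of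
`z ↦ Fin.init z`). For given `z'` the last coordinate `x < H` satisfies `x ≡ z' (f p last) [MOD p]` for all `p ∈ A` with
`f p last < last`, so any two such `x` are congruent modulo the product `d` of these distinct primes
(`Nat.modEq_iff_dvd`, `Finset.prod_dvd_of_coprime`/`Finset.prod_primes_dvd`), and at most `H / d + 1` numbers
`x < H` are in one residue class modulo `d` (`Nat.count_modEq_card` or: `x ↦ x / d` is injective on the class, with
values `≤ (H - 1) / d`). -/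
def DGN_stmt : Prop := ∀ (k H : ℕ) (A : Finset ℕ), (∀ p ∈ A, p.Prime) →
    ∀ f : ℕ → Fin k → Fin k, (∀ p a, f p a ≤ a) →
    ((bx k H).filter fun z => ∀ p ∈ A, ∀ a, z a ≡ z (f p a) [MOD p]).card ≤
      ∏ a : Fin k, (H / (∏ p ∈ A.filter (fun p => f p a < a), p) + 1)

/-- Row DGW (SHORT-MEDIUM; arithmetic).
Proof. Put `d a = ∏ p ∈ A, f p a < a, p ≥ 1`, `g = ∏ p ∈ A, p`. `H / d + 1 ≤ 2 H / min (d, H)` (real numbers).
`∏ a, d a = ∏ p ∈ A, p ^ #{a | f p a < a} ≥ g ^ r` (`Finset.prod_comm'`/`Finset.prod_sigma'`; `r ≤ #{..}`).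
Case `g ≤ H`: `d a ≤ g ≤ H`, so the first product is at most `2 ^ (r+r) H ^ (r+r) / g ^ r` and
`∏ w p ≤ g ^ (n / 2) ≤ g ^ r`. Case `H < g`: `θ = log H / log g ∈ [0, 1)`; `min (d a, H) ≥ (d a) ^ θ` (`d a ≥ 1`,
`d a ≤ g`, `g ^ θ = H`), so `∏ min (d a, H) ≥ (g ^ r) ^ θ = H ^ r`, the first product is at most
`2 ^ (r+r) H ^ r`, and `∏ w p ≤ H ^ r`. -/
def DGW_stmt : Prop := ∀ (r n H : ℕ) (A : Finset ℕ) (w : ℕ → ℝ), n ≤ 2 * r → 1 ≤ H →
    (∀ p ∈ A, p.Prime ∧ 1 ≤ w p ∧ w p ≤ (p : ℝ) ^ ((n : ℝ) / 2)) →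
    ∏ p ∈ A, w p ≤ (H : ℝ) ^ r → ∀ f : ℕ → Fin (r + r) → Fin (r + r),
    (∀ p ∈ A, r + r ≤ 2 * (univ.filter fun a => f p a < a).card) →
    (∏ a : Fin (r + r), (((H / (∏ p ∈ A.filter (fun p => f p a < a), p) + 1 : ℕ)) : ℝ)) *
      ∏ p ∈ A, w p ≤ 2 ^ (r + r) * (H : ℝ) ^ (r + r)

open Classical in
/-- Row DGS (MEDIUM; the sum over the tuples). Hypotheses: DGF, DGN, DGW.
Proof. Let `k = r + r`, `A z = PS.filter (Dg · z)`. By DGF every `z` has, for every `p ∈ A z`, a pattern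
`f p : Fin k → Fin k`. So the sum is at most `∑ A ∈ PS.powerset, ∑ f : (A → (Fin k → Fin k)) with f p a ≤ a and
k ≤ 2 #{a | f p a < a}, #{z ∈ bx k H | ∀ p ∈ A, ∀ a, z a ≡ z (f p a) [MOD p]} * ∏ p ∈ A, w p` (extend `f` to all `p` by
`f p = id`), each term is at most `2 ^ k H ^ k` by DGN and DGW (`∏ p ∈ A, w p ≤ ∏ p ∈ PS, w p ≤ H ^ r`), and there are at
most `∑ A ∈ PS.powerset, (k ^ k) ^ #A = (k ^ k + 1) ^ #PS` pairs (`Finset.sum_pow_mul_eq_add_pow` or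
`Finset.prod_add`/`Finset.prod_one_add`). Alternatively: functions `F : PS → Option (Fin k → Fin k)` (`none` = not in `A`), of
which there are `(k ^ k + 1) ^ #PS`; every `z` determines one of them. -/
def DGS_stmt : Prop := DGF_stmt → DGN_stmt → DGW_stmt →
    ∀ (r n H : ℕ) (PS : Finset ℕ) (w : ℕ → ℝ), n ≤ 2 * r → 1 ≤ H →
    (∀ p ∈ PS, p.Prime ∧ 1 ≤ w p ∧ w p ≤ (p : ℝ) ^ ((n : ℝ) / 2)) →
    ∏ p ∈ PS, w p ≤ (H : ℝ) ^ r →
    ∑ z ∈ bx (r + r) H, ∏ p ∈ PS.filter (fun p => Dg p z), w p ≤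
      (((r + r : ℕ) : ℝ) ^ (r + r) + 1) ^ PS.card * (2 ^ (r + r) * (H : ℝ) ^ (r + r))

open Classical in
/-- Row NPR (SHORT-MEDIUM; few small fields).
Proof. `K₀ = ⌈A ^ (1 / ε)⌉₊`. Let `s` be the set of the `i` with `card F_i < K₀`. `i ↦ ringChar (F i)` maps `s` to the
primes `p < K₀` (`ringChar ≤ card`), and for every prime `p` at most `n` indices `i` have `(p : F i) = 0`:
`p ^ # ≤ ∏ card F_i ≤ p ^ n` (`card F_i ≥ p`, or `2 ^ # ≤ ..` is not enough; use `p ≤ card F_i`,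
`Nat.pow_le_pow_iff_right`). So `#s ≤ n K₀` (`Finset.card_le_mul_card_image`). For `i ∉ s`: `A ≤ (card F_i) ^ ε`.
`A ^ card ι = A ^ #s * A ^ #sᶜ ≤ A ^ (n K₀) * ∏ i ∉ s, (card F_i) ^ ε ≤ A ^ (n K₀) * (∏ card F_i) ^ ε`. -/
def NPR_stmt : Prop := ∀ (n : ℕ) (A ε : ℝ), 1 ≤ A → 0 < ε → ∃ C : ℝ, 1 ≤ C ∧
    ∀ (ι : Type) [Fintype ι] (F : ι → Type) [∀ i, Field (F i)] [∀ i, Fintype (F i)],
    (∀ p : ℕ, p.Prime → ∏ i ∈ univ.filter (fun i => ((p : ℕ) : F i) = 0),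
      (Fintype.card (F i) : ℝ) ≤ (p : ℝ) ^ n) →
    A ^ Fintype.card ι ≤ C * (∏ i, (Fintype.card (F i) : ℝ)) ^ ε

/-- Row NET (MEDIUM; the net of polynomials and Abel summation). `C = 1 + 2 π J` (or larger).
Proof. `k j = ⌊Int.fract (α j) * H ^ (j+1)⌋₊ < H ^ (j+1)`, so `α j = m_j + k j / H ^ (j+1) + δ_j` with an integer `m_j`
and `0 ≤ δ_j ≤ H ^ (-(j+1))`. As `m_j h ^ (j+1)` is an integer, `ee (∑ α_j h^(j+1)) = ee (∑ k_j / H^(j+1) h^(j+1)) * ee (D h)`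
with `D h = ∑ δ_j h ^ (j+1)`, monotone in `h`, `0 = D 0 ≤ D h ≤ J` for `h ≤ H`. With `b h = a h * ee (..)`, `T m = ∑ h < m, b h`:
`∑ h < H', b h * g h = T H' * g (H' - 1) - ∑ h < H' - 1, T (h + 1) * (g (h + 1) - g h)` for `g h = ee (D h)`
(`Finset.sum_range_by_parts`, or induction: `∑ h < m, b h g h = T m g m - ∑ h < m, T (h+1) (g (h+1) - g h)`), and
`‖g (h + 1) - g h‖ ≤ 2 π (D (h+1) - D h)`; so the norm is at most `M + M 2 π D H' ≤ (1 + 2 π J) M`. -/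
def NET_stmt : Prop := ∀ J : ℕ, ∃ C : ℝ, 1 ≤ C ∧ ∀ H : ℕ, 1 ≤ H → ∀ α : ℕ → ℝ,
    ∃ k : Fin J → ℕ, (∀ j, k j < H ^ ((j : ℕ) + 1)) ∧ ∀ (a : ℕ → ℂ) (M : ℝ), 0 ≤ M →
    (∀ H' ≤ H, ‖∑ h ∈ range H', a h *
      ee (∑ j : Fin J, (k j : ℝ) / (H : ℝ) ^ ((j : ℕ) + 1) * (h : ℝ) ^ ((j : ℕ) + 1))‖ ≤ M) →
    ∀ H' ≤ H, ‖∑ h ∈ range H', a h * ee (∑ j ∈ range J, α j * (h : ℝ) ^ (j + 1))‖ ≤ C * M

/-- Row AST (MEDIUM-LONG; assembly): `theorem AST (hMEX : MEX_stmt) (hZZP : ZZP_stmt) (hDGS : DGS_stmt)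
(hDGF : DGF_stmt) (hDGN : DGN_stmt) (hDGW : DGW_stmt) (hNPR : NPR_stmt) (hNET : NET_stmt) : AST_stmt`.
Proof. `1 ≤ r` since `1 ≤ n ≤ 2 r`. `k = r + r`, `A = 2 r (k ^ k + 1)`, `C₁` from NPR for `A`, `ε`; `C₂` from NET;
`C = max (2 ^ (k+1) C₁) C₂`. Net: `Nn = Fintype.piFinset fun j : Fin J => range (H ^ (j+1))`, of cardinality
`H ^ (J (J+1) / 2)` (`∑ j : Fin J, (j + 1) = J (J+1) / 2`). For `κ ∈ Nn`, `H' ∈ range (H+1)`:
`S κ H' u = ∑ h < H', (∏ ψ i (u i + h)) * ee (∑ j, κ j / H^(j+1) h^(j+1))`;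
`B u = (∑ κ, ∑ H', ‖S κ H' u‖ ^ (2 r)) ^ (1 / (2 r))` (real power), `B u ^ (2 r)` = the double sum
(`Real.rpow_natCast`, `Real.rpow_inv_natCast_pow`), `‖S κ H' u‖ ≤ B u`. NET: the last clause. Moment: MEX for
`c h = ee (..)` (norm `1`), the sum over `bx k H'` is at most the sum over `bx k H` (nonnegative terms), ZZP, DGS for
`PS = PP F`, `w = wt F` (`ringChar` is prime; `1 ≤ wt` as `card ≥ 1`; `wt p ^ 2 = ∏ card ≤ p ^ n`, so `wt p ≤ p ^ (n/2)`;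
`∏ p ∈ PP F, wt F p = √(∏ card F_i) ≤ H ^ r`), `#(PP F) ≤ card ι`, so
`(2 r) ^ card ι * (k ^ k + 1) ^ #(PP F) ≤ A ^ card ι ≤ C₁ (∏ card) ^ ε`; `H + 1 ≤ 2 H`. -/
def AST_target : Prop := AST_stmt

end Pool.Agent.UN
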