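import Mathlib
import Pool.Agent.helper13.UN.Defs4

/-!
# Project UN (MP_cf4097_nt), block H, part P: Poisson summation on ideals (target `PNF_stmt`)

Rows are the definitions `XXX_stmt : Prop`; prove `theorem XXX (h1 : AAA_stmt) ... : XXX_stmt` in
`Pool/Agent/<you>/UNH/XXX.lean`, `import Pool.Agent.helper82.UN.SpecP`, namespace `Pool.Agent.UN`,
auxiliary lemmas `XXX_...`. A complete proof of every row is in its docstring; the rows are
independent (other rows are hypotheses). No double quotes, no convert / congr!, no native_decide.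
-/

set_option autoImplicit false

open NumberField Complex MeasureTheory nonZeroDivisors

namespace Pool.Agent.UN

/-! ## Part A: Poisson summation in `ℝ^ι` -/

/-- the point of `ℝ^ι` with integer coordinates `k` -/
def zc {ι : Type} (k : ι → ℤ) : ι → ℝ := fun i => (k i : ℝ)

/-- The Fourier transform of `f` at the integer point `k`. -/
noncomputable def FT {ι : Type} [Fintype ι] (f : (ι → ℝ) → ℂ) (k : ι → ℤ) : ℂ :=
  ∫ t : ι → ℝ, f t * ee (-(∑ i, (k i : ℝ) * t i))

/-- `f` decays: the suprema over the cubes are summable. -/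
def Dec {ι : Type} [Fintype ι] (f : (ι → ℝ) → ℂ) : Prop :=
  ∃ u : (ι → ℤ) → ℝ, Summable u ∧ ∀ (k : ι → ℤ) (t : ι → ℝ), (∀ i, |t i| ≤ 1) → ‖f (t + zc k)‖ ≤ u k

/-- Row PTQ (SHORT): a continuous periodic function descends to the torus.
Proof. `G x = F (fun i => ((AddCircle.equivIco 1 0 (x i)).1 : ℝ))`. For `x = fun i => (t i : UnitAddCircle)` the number
`(equivIco 1 0 (t i)).1` is `t i + l i` with an integer `l i` (`AddCircle.coe_equivIco_mk_apply`, `Int.fract`; or: both map to the same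
point of `UnitAddCircle = ℝ / ℤ`), so `G x = F (t + zc l) = F t`. Continuity: the map `t ↦ fun i => (t i : UnitAddCircle)` is
`Pi.map`, an open quotient map (`IsOpenQuotientMap.piMap`, `QuotientAddGroup.isOpenQuotientMap_mk`), and `G` composed with it is `F`:
`IsQuotientMap.continuous_iff`. -/
def PTQ_stmt : Prop := ∀ (ι : Type) [Fintype ι] (F : (ι → ℝ) → ℂ), Continuous F →
  (∀ (k : ι → ℤ) (t : ι → ℝ), F (t + zc k) = F t) →
  ∃ G : C(UnitAddTorus ι, ℂ), ∀ t : ι → ℝ, G (fun i => (t i : UnitAddCircle)) = F t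

/-- Row PBX (SHORT-MEDIUM): `ℝ^ι` is the disjoint union of the translates of the unit cube.
Proof. `A k = {t | ∀ i, t i ∈ Set.Ioc (k i : ℝ) (k i + 1)}`: measurable, pairwise disjoint, union everything (`k i = ⌈t i⌉ - 1`).
`hasSum_integral_iUnion` (countable index). `∫ t in A k, f t = ∫ t in A 0, f (t + zc k)`: `A 0` is the preimage of `A k` under
`t ↦ t + zc k`, `measurePreserving_add_right volume (zc k)` and `MeasurePreserving.setIntegral_preimage_emb` (or write both as integrals of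
indicators and `integral_add_right_eq_self`). -/
def PBX_stmt : Prop := ∀ (ι : Type) [Fintype ι] (f : (ι → ℝ) → ℂ), Integrable f →
  HasSum (fun k : ι → ℤ => ∫ t in {t : ι → ℝ | ∀ i, t i ∈ Set.Ioc (0 : ℝ) 1}, f (t + zc k)) (∫ t, f t)

/-- Row PIN (SHORT-MEDIUM): a continuous decaying function is integrable.
Proof. With `A k` as in `PBX`: `∫⁻ ‖f‖ = ∑' k, ∫⁻ t in A k, ‖f t‖ ≤ ∑' k, u k < ∞`, as `‖f‖ ≤ u k` on `A k` (`t = (t - zc k) + zc k`,
`|t i - k i| ≤ 1`) and `A k` has volume `1`: `lintegral_iUnion`, `Real.volume_pi_Ioc`; or `integrableOn_iUnion_of_summable_integral_norm`. -/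
def PIN_stmt : Prop := ∀ (ι : Type) [Fintype ι] (f : (ι → ℝ) → ℂ), Continuous f → Dec f →
  Integrable f

/-- Row PPC (SHORT-MEDIUM): the periodisation converges, is continuous and periodic.
Proof. For `t₀` let `l i = round (t₀ i)`; for `t` in the open set `{t | ∀ i, |t i - l i| < 1}`:
`‖f (t + zc k)‖ = ‖f ((t - zc l) + zc (l + k))‖ ≤ u (l + k)`, and `k ↦ u (l + k)` is summable (`Equiv.addLeft`). So the sum is summable at
`t₀`, and continuous on this open set (`continuousOn_tsum`), `ContinuousOn.continuousAt`. Periodicity: `zc l + zc k = zc (l + k)`,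
`Equiv.tsum_eq (Equiv.addLeft l)`. -/
def PPC_stmt : Prop := ∀ (ι : Type) [Fintype ι] (f : (ι → ℝ) → ℂ), Continuous f → Dec f →
  (∀ t, Summable fun k : ι → ℤ => f (t + zc k)) ∧
  Continuous (fun t => ∑' k : ι → ℤ, f (t + zc k)) ∧
  ∀ (l : ι → ℤ) (t : ι → ℝ), ∑' k : ι → ℤ, f (t + zc l + zc k) = ∑' k : ι → ℤ, f (t + zc k)

/-- Row PFC (MEDIUM, from PBX PIN): the Fourier coefficients of the periodisation.
Proof. As `Real.fourierCoeff_tsum_comp_add` (Mathlib, `Analysis/Fourier/PoissonSummation.lean`). `UnitAddTorus.mFourierCoeff_eq_integral G k 0`: the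
coefficient is the integral over the cube `Q = {t | ∀ i, t i ∈ Ioc 0 (0 + 1)}` of `mFourier (-k) t • G t`, and
`mFourier (-k) (fun i => (t i : UnitAddCircle)) = ∏ i, fourier (-k i) (t i) = ee (-(∑ i, k i * t i))` (`fourier_coe_apply`,
`Complex.exp_sum`). Let `g t = f t * ee (-(∑ i, k i * t i))`; then `g (t + zc l) = f (t + zc l) * ee (-(∑ i, k i * t i))` for integer `l`
(`ee` of an integer is `1`). The integral is `∫ t in Q, ∑' l, g (t + zc l) = ∑' l, ∫ t in Q, g (t + zc l)`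
(`integral_tsum_of_summable_integral_norm` or `hasSum_integral_of_summable_integral_norm`: the norms are `≤ u l` on `Q`, of volume
`1`), `= ∫ g` by `PBX` for `g` (integrable by `PIN` for `g`, which is continuous and `Dec` as `‖g‖ = ‖f‖`), `= FT f k`. -/
def PFC_stmt : Prop := ∀ (ι : Type) [Fintype ι] (f : (ι → ℝ) → ℂ) (G : C(UnitAddTorus ι, ℂ)),
  Continuous f → Dec f →
  (∀ t : ι → ℝ, G (fun i => (t i : UnitAddCircle)) = ∑' k : ι → ℤ, f (t + zc k)) →
  ∀ k : ι → ℤ, UnitAddTorus.mFourierCoeff G k = FT f k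

/-- Row POI (SHORT-MEDIUM, from PTQ PPC PFC): Poisson summation in `ℝ^ι`.
Proof. `G` from `PTQ` for the periodisation (`PPC`); `UnitAddTorus.hasSum_mFourier_series_apply_of_summable` (the coefficients are `FT f k` by `PFC`) at
the point `fun i => (t i : UnitAddCircle)`; `mFourier k` at this point is `ee (∑ i, k i * t i)`. -/
def POI_stmt : Prop := ∀ (ι : Type) [Fintype ι] (f : (ι → ℝ) → ℂ), Continuous f → Dec f →
  Summable (FT f) →
  ∀ t : ι → ℝ, ∑' k : ι → ℤ, f (t + zc k) = ∑' k : ι → ℤ, FT f k * ee (∑ i, (k i : ℝ) * t i)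

/-! ## Part B: decay -/

/-- Row PZS (SHORT-MEDIUM): exponentials are summable over `ℤ^ι`.
Proof. `exp (-(c * ∑ i, |k i|)) = ∏ i, exp (-(c |k i|))`. For one variable: `∑' k : ℤ` of `exp (-c) ^ |k|` (`Summable.of_nat_of_neg`,
`summable_geometric_of_lt_one`). Induction over the number of elements: `Fin n → ℤ` (`Fin.consEquiv`, `Summable.mul_of_nonneg`), then transport along
`ι ≃ Fin (card ι)` (`Equiv.piCongrLeft`); or bound all finite sums: a finite set `s` of `ι → ℤ` is contained in a product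
`Fintype.piFinset fun _ => Finset.Icc (-M) M`, `Finset.prod_univ_sum`, `summable_of_sum_le`. -/
def PZS_stmt : Prop := ∀ (ι : Type) [Fintype ι] (c : ℝ), 0 < c →
  Summable fun k : ι → ℤ => Real.exp (-(c * ∑ i, |(k i : ℝ)|))

section fields

variable {K : Type} [Field K] [NumberField K]

/-- the conjugates of `∑ t_i ω_i + r` -/
noncomputable def xw {ι : Type} [Fintype ι] (ω : ι → K) (r : K) (t : ι → ℝ)
    (w : InfinitePlace K) : ℂ := ∑ i, (t i : ℂ) * w.embedding (ω i) + w.embedding r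

/-- the polynomial factor of `Pm`, as a function of the conjugates -/
noncomputable def Pf (m : InfinitePlace K → ℤ) (e : InfinitePlace K → ℕ)
    (z : InfinitePlace K → ℂ) : ℂ :=
  ∏ w : InfinitePlace K, (z w) ^ (e w) *
    (if 0 ≤ m w then (z w) ^ (m w).natAbs else ((starRingEnd ℂ) (z w)) ^ (m w).natAbs)

/-- the Gaussian `Ga`, as a function of the conjugates -/
noncomputable def Gf (y : InfinitePlace K → ℝ) (z : InfinitePlace K → ℂ) : ℝ :=
  Real.exp (-(Real.pi * ∑ w : InfinitePlace K, (w.mult : ℝ) * y w * ‖z w‖ ^ 2))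

/-- the function to which Poisson summation is applied -/
noncomputable def ff {ι : Type} [Fintype ι] (m : InfinitePlace K → ℤ) (e : InfinitePlace K → ℕ)
    (y : InfinitePlace K → ℝ) (ω : ι → K) (r : K) (t : ι → ℝ) : ℂ :=
  Pf m e (xw ω r t) * (Gf y (xw ω r t) : ℂ)

/-- the coordinates of a point of the mixed space as complex numbers -/
noncomputable def cw (x : mixedEmbedding.mixedSpace K) (w : InfinitePlace K) : ℂ := by
  classical exact if h : w.IsReal then ((x.1 ⟨w, h⟩ : ℝ) : ℂ)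
    else x.2 ⟨w, InfinitePlace.not_isReal_iff_isComplex.1 h⟩

end fields

/-- Row PLB (MEDIUM): the conjugates are bounded below by the coordinates.
Proof. The map `T : (ι → ℝ) → (InfinitePlace K → ℂ)`, `t ↦ xw ω 0 t`, is `ℝ`-linear and injective: then `t ↦ ∑ w, ‖T t w‖` is a norm-like
continuous function, positive on the compact sphere `∑ |t i| = 1`, take its minimum (homogeneity); or `LinearMap.exists_antilipschitzWith`
(injective linear maps of finite-dimensional spaces are antilipschitz) and compare norms (`‖T t‖ ≤ ∑ w ‖T t w‖`, `∑ |t i| ≤ card ι * ‖t‖`).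
Injective: let `β = integralBasis K` or `mixedEmbedding.latticeBasis K` (an `ℝ`-basis of the mixed space consisting of the images of a `ℚ`-basis
`β` of `K`). `ι` and the index set of `β` have the same number of elements. If `T t = 0` then `∑ t_i mixedEmbedding (ω i) = 0`
(the real coordinates: `embedding_of_isReal`, its cast is `w.embedding`). Write `β_j = ∑ i, q_ji ω_i`, `q_ji ∈ ℚ`: so the images of the
`ω i` span the mixed space over `ℝ`; being as many as the dimension they are linearly independent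
(`linearIndependent_of_top_le_span_of_card_eq_finrank`), so `t = 0`. -/
def PLB_stmt : Prop := ∀ (K : Type) [Field K] [NumberField K] (ι : Type) [Fintype ι]
  (ω : Module.Basis ι ℚ K), ∃ c : ℝ, 0 < c ∧ ∀ t : ι → ℝ,
  c * ∑ i, |t i| ≤ ∑ w : InfinitePlace K, ‖xw (fun i => ω i) 0 t w‖

/-- Row PBD (SHORT): polynomial times Gaussian is at most a constant times `exp (-x)`.
Proof. `x ^ a * exp (-(c x ^ 2)) * exp x` is continuous on `[0, ∞)` and tends to `0`: or directly `x ^ a ≤ a! exp x` (`Real.pow_div_factorial_le_exp`) and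
`exp (2 x - c x ^ 2) ≤ exp (1 / c)` (`2 x - c x² = 1 / c - c (x - 1 / c)²`). So `C = a! * exp (1 / c)`. -/
def PBD_stmt : Prop := ∀ (a : ℕ) (c : ℝ), 0 < c → ∃ C : ℝ, 0 < C ∧ ∀ x : ℝ, 0 ≤ x →
  x ^ a * Real.exp (-(c * x ^ 2)) ≤ C * Real.exp (-x)

/-- Row PDE (MEDIUM, from PZS PLB PBD): `ff` is continuous and decays.
Proof. Continuity: finite sums, products, powers, `Complex.continuous_conj`, `Complex.continuous_ofReal`. Decay:
`‖ff t‖ = ∏ w, ‖z_w‖ ^ (aa m e w) * exp (-(π n_w y_w ‖z_w‖²))` for `z = xw ω r t`, so `≤ C ∏ exp (-‖z_w‖) = C exp (-∑ ‖z_w‖)` by `PBD` (`n_w = mult ≥ 1`).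
For `|t i| ≤ 1`: `z_w = xw ω 0 (zc k) w + (∑ t_i ω_i + r)_w`, so `∑ ‖z_w‖ ≥ ∑ ‖xw ω 0 (zc k) w‖ - M ≥ c ∑ |k i| - M`, with
`M = ∑ w, (∑ i, ‖w.embedding (ω i)‖ + ‖w.embedding r‖)`. `u k = C exp (M) exp (-(c ∑ |k i|))`, summable by `PZS`. -/
def PDE_stmt : Prop := ∀ (K : Type) [Field K] [NumberField K] (ι : Type) [Fintype ι]
  (ω : Module.Basis ι ℚ K) (r : K) (m : InfinitePlace K → ℤ) (e : InfinitePlace K → ℕ)
  (y : InfinitePlace K → ℝ), (∀ w, 0 < y w) →
  Continuous (ff m e y (fun i => ω i) r) ∧ Dec (ff m e y (fun i => ω i) r)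

/-! ## Part C: integrals -/

/-- Row PCH (SHORT-MEDIUM): change of variables to the coordinates with respect to a basis.
Proof. `e = b.equivFun.symm : (ι → ℝ) ≃ₗ[ℝ] V`. The image of `volume` under `e` is `b.addHaar`
(`volume = (Pi.basisFun ℝ ι).addHaar`, `Basis.map_addHaar`; or directly: it is a Haar measure which gives the parallelepiped of `b`, the
image of the unit cube, measure `1`: `Module.Basis.addHaar_eq_iff`), and `μ = μ (parallelepiped b) • b.addHaar` (`addHaarMeasure_unique`),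
`μ (parallelepiped b) = μ (ZSpan.fundamentalDomain b)` (`ZSpan.fundamentalDomain_ae_parallelepiped`, `measure_congr`). The measure of the fundamental domain is
neither `0` nor `∞` (`ZSpan.measure_fundamentalDomain_ne_zero`, `ZSpan.fundamentalDomain_isBounded`). -/
def PCH_stmt : Prop := ∀ (V : Type) [NormedAddCommGroup V] [NormedSpace ℝ V] [FiniteDimensional ℝ V]
  [MeasurableSpace V] [BorelSpace V] (μ : Measure V) [μ.IsAddHaarMeasure] (ι : Type) [Fintype ι]
  (b : Module.Basis ι ℝ V) (f : V → ℂ),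
  ∫ t : ι → ℝ, f (∑ i, t i • b i) =
    ((((μ (ZSpan.fundamentalDomain b)).toReal)⁻¹ : ℝ) : ℂ) * ∫ v, f v ∂μ

open scoped Classical in
/-- Row PMX (SHORT-MEDIUM): integral of a product over the mixed space.
Proof. The product over all places is the product over the real ones times the product over the complex ones
(`Fintype.prod_subtype_mul_prod_subtype` for `IsReal`, and `{w // ¬ IsReal w} ≃ {w // IsComplex w}`), `cw x w = x.1 w` resp. `x.2 w`;
`integral_prod_mul` (the volume of a product is `Measure.volume_eq_prod`), `integral_fintype_prod_volume_eq_prod`. -/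
def PMX_stmt : Prop := ∀ (K : Type) [Field K] [NumberField K] (g : InfinitePlace K → ℂ → ℂ),
  ∫ x : mixedEmbedding.mixedSpace K, ∏ w : InfinitePlace K, g w (cw x w) =
    (∏ w : {w : InfinitePlace K // w.IsReal}, ∫ s : ℝ, g w.1 (s : ℂ)) *
      ∏ w : {w : InfinitePlace K // w.IsComplex}, ∫ z : ℂ, g w.1 z

/-- Row PGR (SHORT-MEDIUM): real Gaussian integrals.
Proof. `e = 0`: `integral_cexp_quadratic` (`∫ exp (b x² + c x + d)`, `b = -π y`, `c = -2 π i ξ`), or `fourierIntegral_gaussian_pi`; `(π / (π y)) ^ (1/2) =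
y ^ (-1/2)`. `e = 1`: integration by parts, `x exp (-π y x²) = -(1/(2 π y)) d/dx exp (-π y x²)`, `d/dx ee (-(ξ x)) = -2 π i ξ ee (-(ξ x))`
(`integral_mul_deriv_eq_deriv_mul_of_integrable`): the integral is `(1/(2 π y)) (-2 π i ξ) ∫ exp (-π y x²) ee (-(ξ x)) = -I (ξ / y) *` (the
case `e = 0`). -/
def PGR_stmt : Prop := ∀ (y ξ : ℝ) (e : ℕ), 0 < y → e ≤ 1 →
  ∫ x : ℝ, (x : ℂ) ^ e * (Real.exp (-(Real.pi * y * x ^ 2)) : ℂ) * ee (-(ξ * x)) =
    (-I) ^ e * ((y ^ (-((1 : ℝ) / 2 + e)) : ℝ) : ℂ) * (ξ : ℂ) ^ e *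
      (Real.exp (-(Real.pi * (1 / y) * ξ ^ 2)) : ℂ)

/-- Row PGZ (SHORT-MEDIUM): the complex Gaussian with a linear term.
Proof. `z = u + i v`: `Complex.measurableEquivRealProd` / `Complex.volume_preserving_equiv_real_prod`, `integral_prod_mul`. The integrand is
`exp (-2 π y u² + (l - 4 π i s) u) * exp (-2 π y v² + (i l + 4 π i s') v)` with `ξ = s + i s'`, `(ξ z).re = s u - s' v`; two times
`integral_cexp_quadratic`: `(1 / (2 y)) exp (((l - 4 π i s)² + (i l + 4 π i s')²) / (8 π y))`, and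
`(l - 4 π i s)² + (i l + 4 π i s')² = -8 π i l (s - i s') - 16 π² |ξ|²`, `s - i s' = conj ξ`. (Check the sign of the second linear term:
`-2 π i * 2 * (- s' v) = 4 π i s' v`.) -/
def PGZ_stmt : Prop := ∀ (y : ℝ) (ξ l : ℂ), 0 < y →
  Integrable (fun z : ℂ => Complex.exp (l * z) * (Real.exp (-(Real.pi * 2 * y * ‖z‖ ^ 2)) : ℂ) *
    ee (-(2 * (ξ * z).re))) ∧
  ∫ z : ℂ, Complex.exp (l * z) * (Real.exp (-(Real.pi * 2 * y * ‖z‖ ^ 2)) : ℂ) *
    ee (-(2 * (ξ * z).re)) = 1 / (2 * y) * Complex.exp (-I * l * (starRingEnd ℂ) ξ / y) *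
      (Real.exp (-(Real.pi * 2 * (1 / y) * ‖ξ‖ ^ 2)) : ℂ)

/-- Row PGC (MEDIUM, from PGZ): complex Gaussian integrals with a power.
Proof. Let `g z = exp (-2 π y |z|²) ee (-2 Re (ξ z))`. For all `l`: `∑' m, l ^ m / m! * ∫ z ^ m g z = ∫ exp (l z) g z`
(`hasSum_integral_of_summable_integral_norm`; the norms have sum `∫ exp (|l| |z|) |g z| < ∞`: `|l||z| ≤ |l|²/(4 π y) + π y |z|²`). By `PGZ` this is
`(1/(2y)) exp (-2 π |ξ|²/y) ∑' m, l ^ m / m! * (-I conj ξ / y) ^ m`. Two everywhere convergent power series with the same sum have the same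
coefficients: `HasFPowerSeriesAt.eq_formalMultilinearSeries`, `HasFPowerSeriesOnBall` of `FormalMultilinearSeries.ofScalars`, or: multiply with
`l ^ -(m+1)` and integrate over a circle, or induction over `m` with `l → 0`. Other proof: induction over `m` by integration by parts,
`z ^ (m+1) g₀ = z ^ m * (-(1/(2 π y)) ∂_{conj z} g₀)`, `g₀ = exp (-2 π y |z|²)`, with `integral_bilinear_hasLineDerivAt_right_eq_neg_left_of_integrable` in the
directions `1` and `I`: `J_(m+1) = (-I conj ξ / y) J_m`. -/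
def PGC_stmt : Prop := ∀ (y : ℝ) (ξ : ℂ) (m : ℕ), 0 < y →
  ∫ z : ℂ, z ^ m * (Real.exp (-(Real.pi * 2 * y * ‖z‖ ^ 2)) : ℂ) * ee (-(2 * (ξ * z).re)) =
    1 / 2 * (-I) ^ m * ((y ^ (-((1 : ℝ) + m)) : ℝ) : ℂ) * ((starRingEnd ℂ) ξ) ^ m *
      (Real.exp (-(Real.pi * 2 * (1 / y) * ‖ξ‖ ^ 2)) : ℂ)

/-- Row PGJ (SHORT, from PGC): the same with the conjugate.
Proof. Substitute `conj z` for `z` (`Complex.conjLIE`, measure preserving: `LinearIsometryEquiv.measurePreserving`,
`MeasurePreserving.integral_comp`): `(ξ conj z).re = (conj ξ z).re`, `PGC` for `conj ξ`. -/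
def PGJ_stmt : Prop := ∀ (y : ℝ) (ξ : ℂ) (m : ℕ), 0 < y →
  ∫ z : ℂ, ((starRingEnd ℂ) z) ^ m * (Real.exp (-(Real.pi * 2 * y * ‖z‖ ^ 2)) : ℂ) *
    ee (-(2 * (ξ * z).re)) =
    1 / 2 * (-I) ^ m * ((y ^ (-((1 : ℝ) + m)) : ℝ) : ℂ) * ξ ^ m *
      (Real.exp (-(Real.pi * 2 * (1 / y) * ‖ξ‖ ^ 2)) : ℂ)

open scoped Classical in
/-- Row PIV (MEDIUM, from PMX PGR PGC PGJ): the Fourier integral over the mixed space.
Proof. The integrand is `∏ w, g w (cw x w)` with
`g w z = z ^ (e w) * (if 0 ≤ m w then z ^ |m w| else conj z ^ |m w|) * exp (-(π n_w y_w ‖z‖²)) * ee (-(n_w Re (ξ_w z)))`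
(`Real.exp_sum`, `ee` of a sum is the product). `PMX`. Real places: `m w = 0`, `mult = 1`, `ξ_w = w.embedding ξ` is real
(`InfinitePlace.conj_embedding_of_isReal` / `embedding_of_isReal`), `PGR` with `‖(s : ℂ)‖ ^ 2 = s ^ 2`. Complex places: `e w = 0`, `mult = 2`, `PGC` or `PGJ`.
Collect: `(-I) ^ (aa m e w)`, `y_w ^ (-(n_w / 2 + a_w))`, conj of the polynomial factor of `ξ`; the factors `1 / 2` give
`(1 / 2) ^ (number of complex places)` (`InfinitePlace.nrComplexPlaces`). -/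
def PIV_stmt : Prop := ∀ (K : Type) [Field K] [NumberField K] (m : InfinitePlace K → ℤ)
  (e : InfinitePlace K → ℕ) (y : InfinitePlace K → ℝ) (ξ : K),
  (∀ w, w.IsReal → m w = 0) → (∀ w, e w ≤ 1) → (∀ w, w.IsComplex → e w = 0) → (∀ w, 0 < y w) →
  ∫ x : mixedEmbedding.mixedSpace K, Pf m e (cw x) * (Gf y (cw x) : ℂ) *
      ee (-(∑ w : InfinitePlace K, (w.mult : ℝ) * (w.embedding ξ * cw x w).re)) =
    (1 / 2) ^ (InfinitePlace.nrComplexPlaces K) * (-I) ^ (∑ w, aa m e w) *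
      ((∏ w : InfinitePlace K, (y w) ^ (-((w.mult : ℝ) / 2 + aa m e w)) : ℝ) : ℂ) *
      ((starRingEnd ℂ) (Pm m e ξ) * (Ga (fun w => 1 / y w) ξ : ℂ))

/-- Row PTR (SHORT): the trace as a sum over the infinite places.
Proof. `trace_eq_sum_embeddings ℂ` : the trace is `∑ σ : K →ₐ[ℚ] ℂ, σ z` (or over `K →+* ℂ`, `RingHom.equivRatAlgHom`); group by `InfinitePlace.mk σ`: the
fibre of `w` is `{w.embedding, conj w.embedding}`, of cardinality `mult w` (`InfinitePlace.card_filter_mk_eq`, `InfinitePlace.mk_eq_iff`), and real parts. See the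
proof of `InfinitePlace.prod_eq_abs_norm` for the same grouping. -/
def PTR_stmt : Prop := ∀ (K : Type) [Field K] [NumberField K] (z : K),
  ((Algebra.trace ℚ K z : ℚ) : ℝ) = ∑ w : InfinitePlace K, (w.mult : ℝ) * (w.embedding z).re

open scoped Classical in
/-- Row PVO (SHORT): the covolume.
Proof. `mixedEmbedding.volume_fundamentalDomain_fractionalIdealLatticeBasis`, `mixedEmbedding.volume_fundamentalDomain_latticeBasis` (`2⁻¹ ^ r₂ * sqrt |discr|`, as
`ENNReal`s), `FractionalIdeal.coeIdeal_absNorm`, `Real.sqrt_eq_rpow`. -/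
def PVO_stmt : Prop := ∀ (K : Type) [Field K] [NumberField K] (J : Ideal (𝓞 K))
  (A : (FractionalIdeal (𝓞 K)⁰ K)ˣ),
  (A : FractionalIdeal (𝓞 K)⁰ K) = (J : FractionalIdeal (𝓞 K)⁰ K) →
  (volume (ZSpan.fundamentalDomain (mixedEmbedding.fractionalIdealLatticeBasis K A))).toReal =
    (1 / 2) ^ (InfinitePlace.nrComplexPlaces K) * ((Dc K) ^ (1 / 2 : ℝ) * Nm J)

open scoped Classical in
/-- Row PFT (MEDIUM, from PCH PIV PTR PVO): the Fourier transform of `ff`.
Proof. `ω i = basisOfFractionalIdeal K A i`, `b = fractionalIdealLatticeBasis K A`, `b i = mixedEmbedding K (ω i)`. For `v = ∑ t_i b_i`: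
`xw ω r t w = cw (v + mixedEmbedding K r) w` (`cw` is additive and `ℝ`-linear, `cw (mixedEmbedding K a) w = w.embedding a`), and
`∑ k_i t_i = ∑ t_i Tr (ξ ω_i) = ∑_w n_w Re (ξ_w ∑ t_i (ω_i)_w) = ∑_w n_w Re (ξ_w cw (v + mixedEmbedding r) w) - Tr (ξ r)` (`PTR`). So
`FT = ∫ t, F (∑ t_i b_i)` with `F v = H (v + mixedEmbedding K r) * et (ξ * r)`, `H` the integrand of `PIV`. `PCH` for `μ = volume`, `integral_add_right_eq_self`,
`PIV`, `PVO`: `(1/2)^(r₂)` cancels. -/
def PFT_stmt : Prop := ∀ (K : Type) [Field K] [NumberField K] (J : Ideal (𝓞 K))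
  (A : (FractionalIdeal (𝓞 K)⁰ K)ˣ),
  (A : FractionalIdeal (𝓞 K)⁰ K) = (J : FractionalIdeal (𝓞 K)⁰ K) → ∀ (r : K)
  (m : InfinitePlace K → ℤ) (e : InfinitePlace K → ℕ) (y : InfinitePlace K → ℝ),
  (∀ w, w.IsReal → m w = 0) → (∀ w, e w ≤ 1) → (∀ w, w.IsComplex → e w = 0) → (∀ w, 0 < y w) →
  ∀ (k : Module.Free.ChooseBasisIndex ℤ A → ℤ) (ξ : K),
  (∀ i, Algebra.trace ℚ K (ξ * basisOfFractionalIdeal K A i) = k i) →
  FT (ff m e y (fun i => basisOfFractionalIdeal K A i) r) k =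
    (-I : ℂ) ^ (∑ w, aa m e w) / (((Dc K) ^ (1 / 2 : ℝ) * Nm J : ℝ) : ℂ) *
      ((∏ w : InfinitePlace K, (y w) ^ (-((w.mult : ℝ) / 2 + aa m e w)) : ℝ) : ℂ) *
      (et (ξ * r) * (starRingEnd ℂ) (Pm m e ξ) * (Ga (fun w => 1 / y w) ξ : ℂ))

/-- Row PDB (MEDIUM): the bases of `J` and of its dual.
Proof. `ω = basisOfFractionalIdeal K A` is a `ℚ`-basis of `K` with `ℤ`-span `J` (`mem_span_basisOfFractionalIdeal`): the first equivalence
(`Submodule.mem_span_range_iff_exists_fun`, linear independence; elements of `(J : FractionalIdeal)` are the `((x : 𝓞 K) : K)`, `x ∈ J`: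
`FractionalIdeal.mem_coeIdeal`). `ω' = (Algebra.traceForm ℚ K).dualBasis (traceForm_nondegenerate ℚ K) ω`:
`Tr (ω' i * ω j) = δ_ij` (`LinearMap.BilinForm.apply_dualBasis_left`). For `ξ = ∑ q_i ω'_i`: `Tr (ξ ω_j) = q_j`, and `ξ ∈ Du J` iff all `Tr (ξ x)`, `x ∈ J`,
are integers iff all `q_j` are integers (`x = ∑ l_j ω_j`). -/
def PDB_stmt : Prop := ∀ (K : Type) [Field K] [NumberField K] (J : Ideal (𝓞 K))
  (A : (FractionalIdeal (𝓞 K)⁰ K)ˣ),
  (A : FractionalIdeal (𝓞 K)⁰ K) = (J : FractionalIdeal (𝓞 K)⁰ K) →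
  (∃ E : (Module.Free.ChooseBasisIndex ℤ A → ℤ) ≃ J, ∀ k,
    (((E k : J) : 𝓞 K) : K) = ∑ i, (k i : K) * basisOfFractionalIdeal K A i) ∧
  ∃ (E : (Module.Free.ChooseBasisIndex ℤ A → ℤ) ≃ (Du J : Set K))
    (ω' : Module.Basis (Module.Free.ChooseBasisIndex ℤ A) ℚ K), ∀ k,
    ((E k : (Du J : Set K)) : K) = ∑ i, (k i : K) * ω' i ∧
    ∀ i, Algebra.trace ℚ K (((E k : (Du J : Set K)) : K) * basisOfFractionalIdeal K A i) = k i

/-- Row PNF (MEDIUM, from POI PDE PFT PDB): the target.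
Proof. `J ≠ ⊥`: `A` = the unit of `(J : FractionalIdeal)` (`Units.mk0`, `FractionalIdeal.coeIdeal_ne_zero`). `f = ff m e y ω r`, `ω` the basis of `J`: continuous and `Dec` by
`PDE`, and `f (zc k) = Pm m e (x + r) * Ga y (x + r)` for `x = E k` (`PDB`): `xw ω r (zc k) w = w.embedding (∑ k_i ω_i + r)`, `w x = ‖w.embedding x‖`
(`InfinitePlace.norm_embedding_eq`). The first sum is `∑' k, f (0 + zc k)` (`Equiv.tsum_eq`); summable by `Dec` at `t = 0`. `FT f k` = the formula of `PFT` for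
`ξ = E' k` (`PDB`); summable: the norm is a constant times `‖Pm m e ξ‖ * Ga (1/y) ξ = ‖ff m e (1/y) ω' 0 (zc k)‖` (`et` has norm `1`, conj), `PDE` for `ω'`,
`1/y`, `r = 0`. `POI` at `t = 0`: `∑' k, f (zc k) = ∑' k, FT f k`, `tsum_mul_left`. -/
def PNFrow_stmt : Prop := PNF_stmt

end Pool.Agent.UN
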